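import Pool.Agent.CSA.Crit

/-!
# CSF/Cof: complementary ideals

For a Cappell-Shaneson matrix `A` of trace `n` with a vector `v`, `v × A v` primitive, of norm `d` and
residue `c`, and coprime `r, s` with `d ∣ s c - r`, `d e = r^3 - n r^2 s + (n-1) r s^2 - s^3`: after the
change of trace `n ↦ n + k d` the transposed matrix has a vector of norm `e - k r s (r - s)`.
-/

namespace Pool.Agent.CSF

open Matrix Pool.Agent.CSA

/-- `r^3 - n r^2 s + (n-1) r s^2 - s^3` -/
def F (n r s : ℤ) : ℤ := r ^ 3 - n * r ^ 2 * s + (n - 1) * r * s ^ 2 - s ^ 3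

theorem cof_vec {a d c n r s m : ℤ} (ha : a * d = -f n c) (hrs : IsCoprime r s)
    (hm : r = s * c - d * m) :
    (∃ t : V3, wv (X a d c n)ᵀ ![0, s, m] ⬝ᵥ t = 1) ∧
      d * Nv (X a d c n)ᵀ ![0, s, m] = F n r s := by
  have hXe : (X a d c n)ᵀ = !![0, 1, 0; (c - 1) * (n - c - 1), n - c, d; a, 0, c] := by
    unfold X
    ext i j; fin_cases i <;> fin_cases j <;> simp
  have h1 : (X a d c n)ᵀ *ᵥ ![0, s, m] = ![s, (n - c) * s + d * m, c * m] := by
    rw [hXe]
    ext i; fin_cases i <;> simp [Matrix.mulVec, dotProduct, Fin.sum_univ_three]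
  have hw : wv (X a d c n)ᵀ ![0, s, m] = ![m * (r - s * (n - c)), m * s, -s ^ 2] := by
    unfold wv
    rw [h1, cross_apply]
    ext i; fin_cases i
    · simp
      rw [hm]; ring
    · simp
    · simp
      ring
  have hsm : IsCoprime s m := by
    obtain ⟨x, y, hxy⟩ := hrs
    refine ⟨x * c + y, -x * d, ?_⟩
    rw [← hxy, hm]; ring
  have hsr : IsCoprime s (r - s * (n - c)) := by
    obtain ⟨x, y, hxy⟩ := hrs
    refine ⟨y + x * (n - c), x, ?_⟩
    rw [← hxy]; ring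
  have hcop : IsCoprime (s ^ 2) (m * (r - s * (n - c))) := (hsm.mul_right hsr).pow_left
  refine ⟨?_, ?_⟩
  · obtain ⟨x, y, hxy⟩ := hcop
    refine ⟨![y, 0, -x], ?_⟩
    rw [hw]
    simp [dotProduct, Fin.sum_univ_three]
    linear_combination hxy
  · unfold Nv
    rw [hw, h1, hXe]
    simp [Matrix.mulVec, dotProduct, Fin.sum_univ_three]
    unfold f at ha
    unfold F
    subst hm
    linear_combination (-s ^ 3) * ha

theorem F_shift (n r s x : ℤ) : F (n + x) r s = F n r s - x * (r * s * (r - s)) := by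
  unfold F; ring

theorem d_ne {a d n c : ℤ} (ha : a * d = -f n c) : d ≠ 0 := by
  rintro rfl
  rw [mul_zero] at ha
  have h1 : (c * (c - 1)) * (c - n + 1) = 1 := by
    unfold f at ha
    linear_combination ha
  have h2 := (Int.even_mul_pred_self c).mul_right (c - n + 1)
  rw [h1] at h2
  exact absurd h2 (by decide)

/-- The family on the side of `A`. -/
theorem eqv_cof {A : M3} (hA : A.det = 1) (hA' : (A - 1).det = 1) {v t : V3} {r s e k : ℤ}
    (hv : wv A v ⬝ᵥ t = 1) (hrs : IsCoprime r s)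
    (hc : Nv A v ∣ s * (wv A v ⬝ᵥ (A *ᵥ t)) - r)
    (he : Nv A v * e = F A.trace r s) (hk : |e - k * (r * s * (r - s))| ≤ 157) : Eqv A A0 := by
  have hCS : CS A.trace A := ⟨hA, hA', rfl⟩
  refine good_of_J (n := A.trace) (d := Nv A v) (c := wv A v ⬝ᵥ (A *ᵥ t)) hCS
    ⟨v, t, 0, hv, rfl, by ring⟩ ?_
  generalize Nv A v = d at *
  generalize wv A v ⬝ᵥ (A *ᵥ t) = c at *
  generalize A.trace = n at *
  obtain ⟨m, hm⟩ := hc
  have hm' : r = s * c - d * m := by linear_combination -hm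
  refine good_gompf k ?_
  intro a ha
  obtain ⟨⟨t', ht'⟩, hN⟩ := cof_vec ha hrs hm'
  have hX := X_CS ha
  refine crit_pos hX (Or.inr (Or.inr ⟨_, t', ht', ?_⟩))
  have hd := d_ne ha
  have h1 : Nv (X a d c (n + k * d))ᵀ ![0, s, m] = e - k * (r * s * (r - s)) := by
    apply mul_left_cancel₀ hd
    rw [hN, F_shift, ← he]
    ring
  rw [h1]
  exact hk

/-- The family on the side of the transposed matrix. -/
theorem eqv_cofT {A : M3} (hA : A.det = 1) (hA' : (A - 1).det = 1) {v t : V3} {r s e k : ℤ}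
    (hv : wv Aᵀ v ⬝ᵥ t = 1) (hrs : IsCoprime r s)
    (hc : Nv Aᵀ v ∣ s * (wv Aᵀ v ⬝ᵥ (Aᵀ *ᵥ t)) - r)
    (he : Nv Aᵀ v * e = F A.trace r s) (hk : |e - 2 * k * (r * s * (r - s))| ≤ 315) :
    Eqv A A0 := by
  have hCS : CS A.trace A := ⟨hA, hA', rfl⟩
  refine goodT_of_J (n := A.trace) (d := Nv Aᵀ v) (c := wv Aᵀ v ⬝ᵥ (Aᵀ *ᵥ t)) hCS
    ⟨v, t, 0, hv, rfl, by ring⟩ ?_
  generalize Nv Aᵀ v = d at *
  generalize wv Aᵀ v ⬝ᵥ (Aᵀ *ᵥ t) = c at *
  generalize A.trace = n at *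
  obtain ⟨m, hm⟩ := hc
  have hm' : r = s * c - d * m := by linear_combination -hm
  have key : GoodT (n + k * (2 * d)) d c := by
    intro a ha
    obtain ⟨⟨t', ht'⟩, hN⟩ := cof_vec ha hrs hm'
    have hX := (X_CS ha).transpose
    refine crit_pos hX (Or.inr (Or.inl ⟨_, t', ht', ?_⟩))
    have hd := d_ne ha
    have h1 : Nv (X a d c (n + k * (2 * d)))ᵀ ![0, s, m] = e - 2 * k * (r * s * (r - s)) := by
      apply mul_left_cancel₀ hd
      rw [hN, F_shift, ← he]
      ring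
    rw [h1]
    exact hk
  intro a ha
  have h3 := exists_inv ha
  refine good_e1T (n' := n + 1 - 2 * c * (n - c - 1)) h3 (by simp) ?_ a ha
  have h4 : d ∣ -((c - 1) * (n - c - 1)) * c - 1 := by
    rw [mul_comm]; exact h3
  refine good_e1T (n' := n + k * (2 * d)) h4 ⟨k - a * (1 - (n - c - 1)), ?_⟩ key
  unfold f at ha
  linear_combination (2 * (1 - (n - c - 1))) * ha

end Pool.Agent.CSF
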