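import Pool.Agent.CSF.Moves
import Pool.Agent.UNQ.Fin
import Pool.Agent.TSB.Base
import Pool.Agent.CSA.Crit

/-!
# CSF/Final: every carrier of a matrix equivalent to `A_{-1}` is diffeomorphic to `S^4`
-/

open scoped Manifold ContDiff

namespace Pool.Agent.CSF
open Pool.Agent.CSG Pool.Agent.CSA

/-- the standard 4-sphere -/
abbrev S4 := Metric.sphere (0 : EuclideanSpace ℝ (Fin 5)) 1

theorem A0_eq : (CSA.A0 : M3) = UNQ.Am1 := rfl

/-- the base case -/
theorem base_cs : Nonempty (CSData UNQ.Am1 S4) := by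
  have h := TSB.base_cs_of_swap (TS.swap _) 1 (Or.inl rfl)
  set B : M3 := Matrix.transvection 1 0 (-1) * TRF.C0 with hB
  have hBdet : B.det = 1 := by rw [hB]; decide
  have hB1 : (B - 1).det = 1 := by rw [hB]; decide
  have hBt : B.trace = 2 := by rw [hB]; decide
  have h1 : Eqv B CSA.A0 := CSA.eqv_crit hBdet (Or.inl hB1) (Or.inl (by rw [hBt]; norm_num))
  have h2 := (cs_eqv (X := S4) h1).1 h
  rwa [A0_eq] at h2

theorem standard_of_eqv {A : M3} (h : Eqv A CSA.A0) {X : Type*} [TopologicalSpace X] [T2Space X]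
    [ChartedSpace E4 X] (D : CSData A X) : Nonempty (X ≃ₘ^∞⟮𝓡 4, 𝓡 4⟯ S4) := by
  obtain ⟨D'⟩ := (cs_eqv (X := X) h).1 ⟨D⟩
  rw [A0_eq] at D'
  obtain ⟨D₀⟩ := base_cs
  obtain ⟨f⟩ := UNQ.carrier_unique_Am1 D₀ D'
  exact ⟨f.symm⟩

theorem carrier_of_eqv {A : M3} (h : Eqv A CSA.A0) : Nonempty (CSData A S4) := by
  refine (cs_eqv (X := S4) h).2 ?_
  rw [A0_eq]
  exact base_cs

end Pool.Agent.CSF
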