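import Pool.Agent.TS.Swap
import Pool.Agent.TSK.GompfF

/-!
# CSF/Gompf: Gompf's move preserves the carriers
-/

open scoped Manifold ContDiff

namespace Pool.Agent.CSF
open Pool.Agent.CSG

/-- Gompf's move: left multiplication by `!![1, 0, 0; 0, 1, k; 0, 0, 1]` of a matrix with first column
`(1, 1, 0)`. -/
theorem gompf_move {X : Type*} [TopologicalSpace X] [T2Space X] [ChartedSpace E4 X]
    {A : Matrix (Fin 3) (Fin 3) ℤ} (hA : A.det = 1) (h0 : A 0 0 = 1) (h1 : A 1 0 = 1)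
    (h2 : A 2 0 = 0) (k : ℤ) (D : CSData A X) :
    Nonempty (CSData (!![1, 0, 0; 0, 1, k; 0, 0, 1] * A) X) :=
  TSK.gompf_move_of (TS.swap X) hA h0 h1 h2 k D

end Pool.Agent.CSF
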