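import Pool.Agent.CSG.Move
import Pool.Agent.CSA.Defs
import Pool.Agent.CSF.Gompf

/-!
# CSF/Moves: the moves preserve the carriers
-/

open scoped Manifold ContDiff

namespace Pool.Agent.CSF
open Pool.Agent.CSG Pool.Agent.CSA

theorem transv_one (k : ℤ) : (Matrix.transvection 1 0 k : Matrix (Fin 3) (Fin 3) ℤ) =
    !![1, 0, 0; k, 1, 0; 0, 0, 1] := by
  ext i j; fin_cases i <;> fin_cases j <;> simp [Matrix.transvection, Matrix.single]

/-- `E1` from `A` with first column `(1, 1, 0)`. -/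
theorem e1_move {X : Type*} [TopologicalSpace X] [T2Space X] [ChartedSpace E4 X]
    {A : M3} (hA : A.det = 1) (h0 : A 0 0 = 1) (h1 : A 1 0 = 1)
    (h2 : A 2 0 = 0) (D : CSData A X) :
    Nonempty (CSData (!![1, 0, 0; -2, 1, 0; 0, 0, 1] * A) X) := by
  set C : M3 := !![1, 0, 0; -1, 1, 0; 0, 0, 1] * A with hC
  have hCA : Matrix.transvection 1 0 1 * C = A := by
    rw [transv_one, hC, ← Matrix.mul_assoc]
    have : (!![1, 0, 0; 1, 1, 0; 0, 0, 1] * !![1, 0, 0; -1, 1, 0; 0, 0, 1] : M3) = 1 := by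
      ext i j; fin_cases i <;> fin_cases j <;> simp [Matrix.mul_apply, Fin.sum_univ_three]
    rw [this, Matrix.one_mul]
  have hCA' : Matrix.transvection 1 0 (-1) * C = !![1, 0, 0; -2, 1, 0; 0, 0, 1] * A := by
    rw [transv_one, hC, ← Matrix.mul_assoc]
    congr 1
    ext i j; fin_cases i <;> fin_cases j <;> simp [Matrix.mul_apply, Fin.sum_univ_three]
  have hdet : C.det = 1 := by
    rw [hC, Matrix.det_mul, hA, Matrix.det_fin_three]; simp
  have c0 : C 0 0 = 1 := by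
    rw [hC, Matrix.mul_apply, Fin.sum_univ_three, h0, h1, h2]; simp
  have c1 : C 1 0 = 0 := by
    rw [hC, Matrix.mul_apply, Fin.sum_univ_three, h0, h1, h2]; simp
  have c2 : C 2 0 = 0 := by
    rw [hC, Matrix.mul_apply, Fin.sum_univ_three, h0, h1, h2]; simp
  rw [← hCA']
  rw [← hCA] at D
  exact cs_move hdet c0 c1 c2 D

/-- reflection of the second coordinate -/
def Rf : M3 := !![1, 0, 0; 0, -1, 0; 0, 0, 1]

theorem Rf_sq : Rf * Rf = 1 := by
  ext i j; fin_cases i <;> fin_cases j <;> simp [Rf, Matrix.mul_apply, Fin.sum_univ_three]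

theorem Rf_det : IsUnit Rf.det := by
  rw [Rf, Matrix.det_fin_three]; simp

/-- the inverse of `E1`: `A = !![1,0,0;-2,1,0;0,0,1] * B` with `B` having first column `(1,1,0)`. -/
theorem e1_move_inv {X : Type*} [TopologicalSpace X] [T2Space X] [ChartedSpace E4 X]
    {B : M3} (hB : B.det = 1) (h0 : B 0 0 = 1) (h1 : B 1 0 = 1)
    (h2 : B 2 0 = 0) (D : CSData (!![1, 0, 0; -2, 1, 0; 0, 0, 1] * B) X) :
    Nonempty (CSData B X) := by
  -- conjugate by the reflection
  set A : M3 := Rf * (!![1, 0, 0; -2, 1, 0; 0, 0, 1] * B) * Rf with hAdef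
  have hconj : Rf * (!![1, 0, 0; -2, 1, 0; 0, 0, 1] * B) = A * Rf := by
    rw [hAdef, Matrix.mul_assoc _ Rf Rf, Rf_sq, Matrix.mul_one]
  obtain ⟨D1⟩ := cs_conj Rf_det hconj D
  have hA : A.det = 1 := by
    rw [hAdef, Matrix.det_mul, Matrix.det_mul, Matrix.det_mul, hB]
    simp [Rf, Matrix.det_fin_three]
  have m0 : ∀ i : Fin 3, (!![1, 0, 0; -2, 1, 0; 0, 0, 1] * B : M3) i 0 = ![1, -1, 0] i := by
    intro i
    rw [Matrix.mul_apply, Fin.sum_univ_three, h0, h1, h2]
    fin_cases i <;> simp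
  have mA : ∀ i : Fin 3, A i 0 = ![1, 1, 0] i := by
    intro i
    rw [hAdef, Matrix.mul_apply, Fin.sum_univ_three, Matrix.mul_apply, Fin.sum_univ_three,
      m0, m0, m0]
    fin_cases i <;> simp [Rf]
  have a0 : A 0 0 = 1 := mA 0
  have a1 : A 1 0 = 1 := mA 1
  have a2 : A 2 0 = 0 := mA 2
  obtain ⟨D2⟩ := e1_move hA a0 a1 a2 D1
  have hconj2 : Rf * (!![1, 0, 0; -2, 1, 0; 0, 0, 1] * A) = B * Rf := by
    have e : Rf * (!![1, 0, 0; -2, 1, 0; 0, 0, 1] * (Rf * !![1, 0, 0; -2, 1, 0; 0, 0, 1])) =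
        (1 : M3) := by
      ext i j; fin_cases i <;> fin_cases j <;>
        simp [Rf, Matrix.mul_apply, Fin.sum_univ_three]
    calc Rf * (!![1, 0, 0; -2, 1, 0; 0, 0, 1] * A)
        = (Rf * (!![1, 0, 0; -2, 1, 0; 0, 0, 1] * (Rf * !![1, 0, 0; -2, 1, 0; 0, 0, 1]))) *
          (B * Rf) := by rw [hAdef]; simp only [Matrix.mul_assoc]
      _ = B * Rf := by rw [e, Matrix.one_mul]
  exact cs_conj Rf_det hconj2 D2

/-- every elementary move preserves the carriers, in both directions -/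
theorem cs_mv {X : Type*} [TopologicalSpace X] [T2Space X] [ChartedSpace E4 X] {A B : M3}
    (h : Mv A B) : Nonempty (CSData A X) ↔ Nonempty (CSData B X) := by
  cases h with
  | conj P Q hA hA' h =>
    have hQP : Q * P = 1 := mul_eq_one_comm.1 h
    have hPd : IsUnit P.det := by
      have := congrArg Matrix.det h
      rw [Matrix.det_mul, Matrix.det_one] at this
      exact IsUnit.of_mul_eq_one _ this
    have hQd : IsUnit Q.det := by
      have := congrArg Matrix.det hQP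
      rw [Matrix.det_mul, Matrix.det_one] at this
      exact IsUnit.of_mul_eq_one _ this
    constructor
    · rintro ⟨D⟩
      refine cs_conj hPd ?_ D
      rw [Matrix.mul_assoc (P * A) Q P, hQP, Matrix.mul_one]
    · rintro ⟨D⟩
      refine cs_conj hQd ?_ D
      rw [← Matrix.mul_assoc, ← Matrix.mul_assoc, hQP, Matrix.one_mul]
  | inv _ hA hA' h =>
    exact ⟨fun ⟨D⟩ => cs_inv h D, fun ⟨D⟩ => cs_inv (mul_eq_one_comm.1 h) D⟩
  | e1 hA hA' h0 h1 h2 =>
    exact ⟨fun ⟨D⟩ => e1_move hA h0 h1 h2 D, fun ⟨D⟩ => e1_move_inv hA h0 h1 h2 D⟩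
  | gompf k hA hA' h0 h1 h2 =>
    refine ⟨fun ⟨D⟩ => gompf_move hA h0 h1 h2 k D, fun ⟨D⟩ => ?_⟩
    have e : (!![1, 0, 0; 0, 1, -k; 0, 0, 1] * (!![1, 0, 0; 0, 1, k; 0, 0, 1] * A) : M3) = A := by
      rw [← Matrix.mul_assoc]
      have : (!![1, 0, 0; 0, 1, -k; 0, 0, 1] * !![1, 0, 0; 0, 1, k; 0, 0, 1] : M3) = 1 := by
        ext i j; fin_cases i <;> fin_cases j <;> simp [Matrix.mul_apply, Fin.sum_univ_three]
      rw [this, Matrix.one_mul]
    have := gompf_move (A := !![1, 0, 0; 0, 1, k; 0, 0, 1] * A)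
      (by rw [Matrix.det_mul, hA, Matrix.det_fin_three]; simp)
      (by rw [Matrix.mul_apply, Fin.sum_univ_three, h0, h1, h2]; simp)
      (by rw [Matrix.mul_apply, Fin.sum_univ_three, h0, h1, h2]; simp)
      (by rw [Matrix.mul_apply, Fin.sum_univ_three, h0, h1, h2]; simp) (-k) D
    rwa [e] at this

theorem cs_eqv {X : Type*} [TopologicalSpace X] [T2Space X] [ChartedSpace E4 X] {A B : M3}
    (h : Eqv A B) : Nonempty (CSData A X) ↔ Nonempty (CSData B X) := by
  induction h with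
  | rel A B h => exact cs_mv h
  | refl A => exact Iff.rfl
  | symm A B _ ih => exact ih.symm
  | trans A B C _ _ ih1 ih2 => exact ih1.trans ih2

end Pool.Agent.CSF
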