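import Pool.Agent.CSG.Defs

/-!
# CSF/Stmt: Cappell-Shaneson manifolds, the definition in short pieces

`T^3 = R^3 / Z^3`; a point of `R^3` is `x`, a point of the lattice is `vec m`.
-/

open scoped Manifold ContDiff

namespace Pool.Agent.CSF
open Pool.Agent.CSG

/-- A linear isomorphism of `R^3`. -/
abbrev Fr := E3 ≃L[ℝ] E3

/-- The value of a linear isomorphism at a vector. -/
def ap (L : Fr) (z : E3) : E3 := L z

/-- A smooth family of linear isomorphisms. -/
def SmoothFam (P : ℝ → Fr) : Prop := ContDiff ℝ ∞ fun q : ℝ × E3 => ap (P q.1) q.2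

/-- A framing of the normal space of the circle through the fixed point `0` in the mapping torus of
`A`: `P t`, a linear isomorphism depending smoothly on `t`, with `A P (t + 1) = P t`; the image of the
open unit ball contains no other lattice point. -/
structure IsFraming (A : Matrix (Fin 3) (Fin 3) ℤ) (P : ℝ → Fr) : Prop where
  smooth : SmoothFam P
  mon : ∀ t z, act A (ap (P (t + 1)) z) = ap (P t) z
  avoid : ∀ t z, z ≠ 0 → ‖z‖ < 1 → ¬ IsLat (ap (P t) z)

variable {X : Type*} [TopologicalSpace X] [ChartedSpace E4 X]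

/-- `H` is a local diffeomorphism at `(x, t)`. -/
def LocH (H : E3 × ℝ → X) (x : E3) (t : ℝ) : Prop :=
  IsLocalDiffeomorphAt 𝓘(ℝ, E3 × ℝ) (𝓡 4) ∞ H (x, t)

/-- `j` is a local diffeomorphism at `(y, v)`. -/
def LocJ (j : S2 × ℂ → X) (y : S2) (v : ℂ) : Prop :=
  IsLocalDiffeomorphAt ((𝓡 2).prod 𝓘(ℝ, ℂ)) (𝓡 4) ∞ j (y, v)

/-- `H` embeds the complement of the circle `0` in the mapping torus of `A` as an open submanifold
of `X`: local diffeomorphism on `(R^3 - Z^3) x R`, and two points have the same image iff they are the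
same point of the mapping torus. -/
structure IsTorus (A : Matrix (Fin 3) (Fin 3) ℤ) (H : E3 × ℝ → X) : Prop where
  loc : ∀ x t, ¬ IsLat x → LocH H x t
  per : ∀ x t m, ¬ IsLat x → H (x + vec m, t) = H (x, t)
  mon : ∀ x t, ¬ IsLat x → H (act A x, t) = H (x, t + 1)
  inj : ∀ x y s t, ¬ IsLat x → ¬ IsLat y → 0 ≤ s → s < 1 → 0 ≤ t → t < 1 →
    H (x, s) = H (y, t) → s = t ∧ ∃ m, y = x + vec m

/-- `j` embeds `S^2 x D^2` as an open submanifold of `X`, `D^2` the open unit disc. -/
structure IsTube (j : S2 × ℂ → X) : Prop where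
  loc : ∀ y v, ‖v‖ < 1 → LocJ j y v
  inj : ∀ y y' v v', ‖v‖ < 1 → ‖v'‖ < 1 → j (y, v) = j (y', v') → y = y' ∧ v = v'

/-- The point `r y` of `R^3`. -/
noncomputable def ray (r : ℝ) (y : S2) : E3 := r • (y : E3)

/-- The punctured tubular neighbourhood of the circle `0` in the mapping torus is identified with
`S^2 x (D^2 - 0)` by means of the framing `P`. -/
def Glued (H : E3 × ℝ → X) (j : S2 × ℂ → X) (P : ℝ → Fr) : Prop :=
  ∀ (t r : ℝ) (y : S2), 0 < r → r < 1 →
    j (y, r * Complex.exp (2 * Real.pi * t * Complex.I)) = H (ap (P t) (ray r y), t)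

/-- `X` is the disjoint union of the image of `H` and of the sphere `j (S^2 x 0)`. -/
structure Covers (H : E3 × ℝ → X) (j : S2 × ℂ → X) : Prop where
  disj : ∀ y x t, ¬ IsLat x → j (y, 0) ≠ H (x, t)
  cover : ∀ p : X, (∃ y, p = j (y, 0)) ∨ ∃ x t, ¬ IsLat x ∧ p = H (x, t)

/-- `X` is a Cappell-Shaneson manifold of `A`: the result of surgery on the mapping torus of the
diffeomorphism `A` of `T^3` along the circle through the fixed point `0`, with some framing. -/
def CSMfd (A : Matrix (Fin 3) (Fin 3) ℤ) (X : Type*) [TopologicalSpace X] [ChartedSpace E4 X] :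
    Prop :=
  ∃ (H : E3 × ℝ → X) (j : S2 × ℂ → X) (P : ℝ → Fr),
    IsFraming A P ∧ IsTorus A H ∧ IsTube j ∧ Glued H j P ∧ Covers H j

theorem csMfd_iff {A : Matrix (Fin 3) (Fin 3) ℤ} : CSMfd A X ↔ Nonempty (CSData A X) := by
  constructor
  · rintro ⟨H, j, P, hP, hH, hj, hg, hc⟩
    exact ⟨{
      H := H
      j := j
      P := P
      P_smooth := hP.smooth
      P_mon := hP.mon
      P_avoid := hP.avoid
      H_loc := hH.loc
      H_per := hH.per
      H_mon := hH.mon
      H_inj := hH.inj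
      j_loc := hj.loc
      j_inj := hj.inj
      glue := hg
      disj := hc.disj
      cover := hc.cover }⟩
  · rintro ⟨D⟩
    exact ⟨D.H, D.j, D.P, ⟨D.P_smooth, D.P_mon, D.P_avoid⟩, ⟨D.H_loc, D.H_per, D.H_mon, D.H_inj⟩,
      ⟨D.j_loc, D.j_inj⟩, D.glue, ⟨D.disj, D.cover⟩⟩

/-- The standard smooth 4-sphere. -/
abbrev Sph4 := Metric.sphere (0 : EuclideanSpace ℝ (Fin 5)) 1

/-- `X` is diffeomorphic to the standard 4-sphere. -/
def IsStdSphere (X : Type*) [TopologicalSpace X] [ChartedSpace E4 X] : Prop :=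
  Nonempty (X ≃ₘ^∞⟮𝓡 4, 𝓡 4⟯ Sph4)

end Pool.Agent.CSF
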